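import Mathlib
import Pool.Agent.H60.CE.Final

/-!
# Upper bounds for the lower limit of the Jacobi parameters of the Cantor equilibrium measure
-/

set_option autoImplicit false

open Polynomial MeasureTheory Filter

namespace Pool.Agent.Results.MP_216879_an.EvenCoefficients

open Pool.Agent.H60.CE

/-- Let `μ` be the equilibrium measure of the Cantor set `K₀`, and `l` the lower limit of its
recurrence coefficients `a n`.
* `a (2 k + 1) ≥ 1 / 6` for all `k`, and `l` is the lower limit of the `a (2 k)`;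
* `l ≤ 1 / 6`;
* for every monic polynomial `Q` of degree `d ≥ 1` with `|Q| ≤ M` on `K₀` and `M < |Q (1 / 2)| = v`,
  `l ^ d ≤ (v - √(v ^ 2 - M ^ 2)) / 2`. -/
theorem result (μ : Measure ℝ) (hμ : IsEquilibrium μ cantorSet) (P : ℕ → ℝ[X]) (a b : ℕ → ℝ)
    (hP : IsOPSystem μ P a b) :
    (∀ k : ℕ, 1 / 6 ≤ a (2 * k + 1)) ∧
    liminf a atTop = liminf (fun k => a (2 * k)) atTop ∧
    liminf a atTop ≤ 1 / 6 ∧
    ∀ (Q : ℝ[X]) (M : ℝ), Q.Monic → 0 < Q.natDegree → (∀ x ∈ cantorSet, |Q.eval x| ≤ M) →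
      M < |Q.eval (1 / 2)| →
        liminf a atTop ^ Q.natDegree ≤
          (|Q.eval (1 / 2)| - √(Q.eval (1 / 2) ^ 2 - M ^ 2)) / 2 := by
  obtain ⟨h0, h1⟩ := liminf_even hμ hP
  rw [liminf_eq hμ hP]
  exact ⟨odd_ge (nice hμ) (op hμ hP), rfl, key_sixth hμ hP h0 h1,
    fun Q M hQ hd hM hv => key hμ hP h0 h1 Q M hQ hd hM hv⟩

end Pool.Agent.Results.MP_216879_an.EvenCoefficients
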